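import Pool.Agent.H519R3.RS.Tower

/-! Foliations of higher rank: constants of commuting derivations. -/

set_option autoImplicit false
set_option linter.style.haveILetI false
set_option linter.unusedSectionVars false

open Pool.Agent.H920R2

universe u v

namespace Pool.Agent.Helper44x.FR

section comm

variable {k : Type u} {Λ : Type v} [Field k] [CommRing Λ] [IsDomain Λ] [Algebra k Λ]

/-- Elements of `R` killed by the first derivations. -/
def kers (R : Subalgebra k Λ) {r : ℕ} (E : Fin r → Derivation k Λ Λ) (m : ℕ) : Subalgebra k Λ where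
  carrier := {x | x ∈ R ∧ ∀ i : Fin r, (i : ℕ) < m → E i x = 0}
  mul_mem' := fun {a b} ha hb => ⟨R.mul_mem ha.1 hb.1, fun i hi => by
    rw [Derivation.leibniz, ha.2 i hi, hb.2 i hi, smul_zero, smul_zero, add_zero]⟩
  add_mem' := fun {a b} ha hb => ⟨R.add_mem ha.1 hb.1, fun i hi => by
    rw [map_add, ha.2 i hi, hb.2 i hi, add_zero]⟩
  algebraMap_mem' := fun c => ⟨R.algebraMap_mem c, fun i _ => Derivation.map_algebraMap _ _⟩

lemma mem_kers {R : Subalgebra k Λ} {r : ℕ} {E : Fin r → Derivation k Λ Λ} {m : ℕ} {x : Λ} :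
    x ∈ kers R E m ↔ x ∈ R ∧ ∀ i : Fin r, (i : ℕ) < m → E i x = 0 := Iff.rfl

/-- The ring of constants of commuting derivations with coordinates is smooth. -/
theorem smooth_kers {p : ℕ} (hp : p.Prime) (hpk : (p : k) = 0) (R : Subalgebra k Λ) {r : ℕ}
    (E : Fin r → Derivation k Λ Λ) (hE : ∀ i x, (E i)^[p] x = 0)
    (hcomm : ∀ i j x, E i (E j x) = E j (E i x)) (hRE : ∀ i, ∀ x ∈ R, E i x ∈ R) (b : Fin r → Λ)
    (hb : ∀ j, b j ∈ R) (hEb : ∀ i j, E i (b j) = if i = j then 1 else 0)
    (hR : Algebra.Smooth k R) (m : ℕ) (hm : m ≤ r) : Algebra.Smooth k (kers R E m) := by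
  induction m with
  | zero =>
    have h1 : kers R E 0 = R := by
      ext x
      rw [mem_kers]
      exact ⟨fun h => h.1, fun h => ⟨h, fun i hi => absurd hi (Nat.not_lt_zero _)⟩⟩
    rw [h1]
    exact hR
  | succ m ih =>
    have h0 := ih (by omega)
    let i0 : Fin r := ⟨m, by omega⟩
    have h1 := smooth_ker (E i0) hp hpk 0 (fun x => by rw [hE, zero_mul]) (b i0) 1 1
      (by rw [hEb, if_pos rfl]) (one_mul 1) (kers R E m)
      ⟨hb i0, fun i hi => by
        rw [hEb, if_neg]
        rintro rfl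
        exact lt_irrefl _ hi⟩
      (fun x hx => ⟨hRE _ _ hx.1, fun i hi => by rw [hcomm, hx.2 i hi, map_zero]⟩)
      (Subalgebra.one_mem _) h0
    have h2 : kers R E (m + 1) = kers R E m ⊓ kerAlg (E i0) := by
      ext x
      rw [Algebra.mem_inf, mem_kers, mem_kers, mem_kerAlg]
      constructor
      · rintro ⟨h3, h4⟩
        exact ⟨⟨h3, fun i hi => h4 i (by omega)⟩, h4 i0 (Nat.lt_succ_self m)⟩
      · rintro ⟨⟨h3, h4⟩, h5⟩
        refine ⟨h3, fun i hi => ?_⟩
        rcases Nat.lt_succ_iff_lt_or_eq.1 hi with h | h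
        · exact h4 i h
        · have h6 : i = i0 := Fin.ext h
          rw [h6]
          exact h5
    rw [h2]
    exact h1

end comm

end Pool.Agent.Helper44x.FR
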