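import Pool.Agent.Helper44x.FR.Step
import Pool.Agent.Y177.Dg.Grd
import Pool.Agent.H519R3.RS.Centre

/-! Foliations of higher rank: the main theorem. -/

set_option autoImplicit false
set_option linter.style.haveILetI false
set_option linter.unusedSectionVars false

open AlgebraicGeometry CategoryTheory Pool.Agent.H920R2 Pool.Agent.H519R3.RS Pool.Agent.Y177.Dg

universe u

namespace Pool.Agent.Helper44x.FR

variable {k B : Type u} [Field k] [CommRing B] [IsDomain B] [Algebra k B]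

/-- The constants of a family of derivations. -/
def cst {r : ℕ} (D : Fin r → Derivation k B B) : Subalgebra k B where
  carrier := {x | ∀ i, D i x = 0}
  mul_mem' := fun {a b} ha hb i => by
    rw [Derivation.leibniz, ha i, hb i, smul_zero, smul_zero, add_zero]
  add_mem' := fun {a b} ha hb i => by rw [map_add, ha i, hb i, add_zero]
  algebraMap_mem' := fun c i => Derivation.map_algebraMap _ _

theorem good_cst {p : ℕ} (hp : p.Prime) (hpk : (p : k) = 0) {r : ℕ}
    (D : Fin r → Derivation k B B) (hfol : IsFoliation p D)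
    {F : ℕ → Ideal B} (hF : IsFilt F) (hG : Good k hF) (hne : F 1 ≠ ⊥) {l : Fin r → ℕ}
    (hdiv : ∀ i d, ∀ a ∈ F d, D i a ∈ F (d + l i))
    (hfix : ∀ P : Ideal B, P.IsPrime →
      (∀ b : Fin r → B, (Matrix.of fun i j => D i (b j)).det ∈ P) → F 1 ≤ P)
    (hlead : ∀ d, 1 ≤ d → ∀ a ∈ F d, ∃ N : ℕ,
      a ^ N ∈ leadG F (detD (fun i => D i) F l) (N * d)) :
    Good k (isFilt_restr hF (cst D)) ∧ restr F (cst D) 1 ≠ ⊥ := by
  refine ⟨good_kers hp hpk D hfol hF hG hdiv hfix hlead (cst D).val Subtype.val_injective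
    (fun c => ⟨fun h => ⟨⟨c, h⟩, rfl⟩, ?_⟩) _ fun d c' => Iff.rfl, ?_⟩
  · rintro ⟨c', rfl⟩
    exact c'.2
  · obtain ⟨a, ha, ha0⟩ := Submodule.exists_mem_ne_zero_of_ne_bot hne
    have hpC : ((p : ℕ) : B) = 0 := by rw [← map_natCast (algebraMap k B), hpk, map_zero]
    have hmem : a ^ p ∈ cst D := by
      intro i
      rw [Derivation.leibniz_pow, nsmul_eq_mul, hpC, zero_mul]
    intro hbot
    have h6 : (⟨a ^ p, hmem⟩ : cst D) ∈ restr F (cst D) 1 := by
      rw [mem_restr]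
      exact (F 1).pow_mem_of_mem ha p hp.pos
    rw [hbot, Ideal.mem_bot] at h6
    have h7 : a ^ p = 0 := congrArg Subtype.val h6
    exact ha0 (pow_eq_zero_iff hp.ne_zero |>.1 h7)

theorem main {p : ℕ} (hp : p.Prime) (hpk : (p : k) = 0) {r : ℕ}
    (D : Fin r → Derivation k B B) (hfol : IsFoliation p D)
    {F : ℕ → Ideal B} (hF : IsFilt F) (hG : Good k hF) (hne : F 1 ≠ ⊥) {l : Fin r → ℕ}
    (hdiv : ∀ i d, ∀ a ∈ F d, D i a ∈ F (d + l i))
    (hfix : ∀ P : Ideal B, P.IsPrime →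
      (∀ b : Fin r → B, (Matrix.of fun i j => D i (b j)).det ∈ P) → F 1 ≤ P)
    (hlead : ∀ d, 1 ≤ d → ∀ a ∈ F d, ∃ N : ℕ,
      a ^ N ∈ leadG F (detD (fun i => D i) F l) (N * d))
    {Λ : Type} [AddCommGroup Λ] [Fintype Λ] [DecidableEq Λ] (𝒜 : Λ → Submodule k B)
    [GradedAlgebra 𝒜] (hhom : ∀ d, (F d).IsHomogeneous 𝒜) (β : Fin r → Λ)
    (hβ : ∀ i, ∀ μ, ∀ b ∈ 𝒜 μ, D i b ∈ 𝒜 (μ + β i))
    (R : Subalgebra k B) (hR : ∀ b, b ∈ R ↔ b ∈ 𝒜 0 ∧ ∀ i, D i b = 0) :
    IsVariety (X := Spec (CommRingCat.of R))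
      (Spec.map (CommRingCat.ofHom (algebraMap k R))) ∧
    HasResolution (X := Spec (CommRingCat.of R))
      (Spec.map (CommRingCat.ofHom (algebraMap k R))) := by
  obtain ⟨h1, h2⟩ := good_cst hp hpk D hfol hF hG hne hdiv hfix hlead
  refine concl_zr hF h1 h2 (pg_grd 𝒜) ?_ (fun d c hc i => by
    rw [GradedAlgebra.proj_apply]
    exact hhom d i hc) R fun b => ?_
  · intro μ x hx i
    have h3 : ∀ ν, GradedAlgebra.proj 𝒜 (ν + β i) (D i (GradedAlgebra.proj 𝒜 ν x)) =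
        D i (GradedAlgebra.proj 𝒜 ν x) := by
      intro ν
      rw [proj_eq_iff]
      refine hβ i ν _ ?_
      rw [GradedAlgebra.proj_apply]
      exact SetLike.coe_mem _
    have h4 : D i x = ∑ ν, D i (GradedAlgebra.proj 𝒜 ν x) := by
      conv_lhs => rw [← (pg_grd 𝒜).sum x, map_sum]
    have h5 : GradedAlgebra.proj 𝒜 (μ + β i) (D i x) = D i (GradedAlgebra.proj 𝒜 μ x) := by
      rw [h4, map_sum, Finset.sum_eq_single μ]
      · exact h3 μ
      · intro ν _ hν
        exact (pg_grd 𝒜).ne (fun h => hν (add_right_cancel h).symm) (h3 ν)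
      · intro h
        exact absurd (Finset.mem_univ _) h
    rw [hx i, map_zero] at h5
    exact h5.symm
  · rw [hR, and_comm]
    refine and_congr Iff.rfl ?_
    exact (proj_eq_iff 𝒜 0 b).symm

end Pool.Agent.Helper44x.FR
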