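import Pool.Agent.Helper44x.FR.Local

/-! Foliations of higher rank: adapted bases. -/

set_option autoImplicit false
set_option linter.style.haveILetI false
set_option linter.unusedSectionVars false

open Pool.Agent.H920R2

universe u v

namespace Pool.Agent.Helper44x.FR

section adapt

variable {k L : Type u} [Field k] [Field L] [Algebra k L]

/-- The span of a family of derivations of a field is closed under brackets and `p`-th powers. -/
def ClosedSpan (p : ℕ) {r : ℕ} (D : Fin r → Derivation k L L) : Prop :=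
  (∀ X ∈ Submodule.span L (Set.range D), ∀ Y ∈ Submodule.span L (Set.range D),
    ⁅X, Y⁆ ∈ Submodule.span L (Set.range D)) ∧
  ∀ X ∈ Submodule.span L (Set.range D), ∃ Y ∈ Submodule.span L (Set.range D),
    ∀ x, X^[p] x = Y x

lemma der_sum {r : ℕ} (X : Fin r → Derivation k L L) (x : L) : (∑ m, X m) x = ∑ m, X m x := by
  have h1 := map_sum (Derivation.coeFnAddMonoidHom (R := k) (A := L) (M := L)) X Finset.univ
  have h2 := congrFun h1 x
  rw [Finset.sum_apply] at h2
  exact h2

lemma span_zero {r : ℕ} (D : Fin r → Derivation k L L) (β : Fin r → L)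
    (hdet : (Matrix.of fun i j => D i (β j)).det ≠ 0) (X : Derivation k L L)
    (hX : X ∈ Submodule.span L (Set.range D)) (h0 : ∀ j, X (β j) = 0) : X = 0 := by
  classical
  obtain ⟨c, rfl⟩ := (Submodule.mem_span_range_iff_exists_fun L).1 hX
  have h1 : Matrix.vecMul c (Matrix.of fun i j => D i (β j)) = 0 := by
    funext j
    have h2 := h0 j
    rw [der_sum] at h2
    rw [Matrix.vecMul, dotProduct]
    simpa [smul_eq_mul] using h2
  have h2 : c = 0 := by
    have h3 := Matrix.eq_zero_of_vecMul_eq_zero hdet h1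
    exact h3
  rw [h2]
  simp

/-- The adapted basis. -/
noncomputable def adE {r : ℕ} (D : Fin r → Derivation k L L) (β : Fin r → L) (i : Fin r) :
    Derivation k L L :=
  ∑ m, ((Matrix.of fun i j => D i (β j))⁻¹ i m) • D m

lemma adE_mem {r : ℕ} (D : Fin r → Derivation k L L) (β : Fin r → L) (i : Fin r) :
    adE D β i ∈ Submodule.span L (Set.range D) :=
  Submodule.sum_mem _ fun m _ => Submodule.smul_mem _ _ (Submodule.subset_span ⟨m, rfl⟩)

lemma adE_apply {r : ℕ} (D : Fin r → Derivation k L L) (β : Fin r → L) (i : Fin r) (x : L) :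
    adE D β i x = ∑ m, ((Matrix.of fun i j => D i (β j))⁻¹ i m) * D m x := by
  rw [adE, der_sum]
  rfl

lemma adE_coord {r : ℕ} (D : Fin r → Derivation k L L) (β : Fin r → L)
    (hdet : (Matrix.of fun i j => D i (β j)).det ≠ 0) (i j : Fin r) :
    adE D β i (β j) = if i = j then 1 else 0 := by
  classical
  rw [adE_apply]
  have h1 : ((Matrix.of fun i j => D i (β j))⁻¹ * (Matrix.of fun i j => D i (β j))) i j =
      (1 : Matrix (Fin r) (Fin r) L) i j := by
    rw [Matrix.nonsing_inv_mul _ (isUnit_iff_ne_zero.2 hdet)]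
  rw [Matrix.mul_apply, Matrix.one_apply] at h1
  exact h1

lemma adE_comm {p r : ℕ} (D : Fin r → Derivation k L L) (hD : ClosedSpan p D) (β : Fin r → L)
    (hdet : (Matrix.of fun i j => D i (β j)).det ≠ 0) (i j : Fin r) (x : L) :
    adE D β i (adE D β j x) = adE D β j (adE D β i x) := by
  have h1 : ⁅adE D β i, adE D β j⁆ = 0 := by
    refine span_zero D β hdet _ (hD.1 _ (adE_mem D β i) _ (adE_mem D β j)) fun m => ?_
    have h2 : ∀ i j : Fin r, adE D β i (adE D β j (β m)) = 0 := by
      intro i j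
      rw [adE_coord D β hdet]
      split_ifs
      · exact Derivation.map_one_eq_zero _
      · exact map_zero _
    rw [Derivation.commutator_apply, h2, h2, sub_zero]
  have h2 := congrArg (fun E : Derivation k L L => E x) h1
  change ⁅adE D β i, adE D β j⁆ x = 0 at h2
  rw [Derivation.commutator_apply, sub_eq_zero] at h2
  exact h2

lemma adE_pow {p r : ℕ} (hp : 2 ≤ p) (D : Fin r → Derivation k L L) (hD : ClosedSpan p D)
    (β : Fin r → L) (hdet : (Matrix.of fun i j => D i (β j)).det ≠ 0) (i : Fin r) (x : L) :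
    (adE D β i)^[p] x = 0 := by
  obtain ⟨Y, hY, hYp⟩ := hD.2 _ (adE_mem D β i)
  have h1 : Y = 0 := by
    refine span_zero D β hdet _ hY fun j => ?_
    rw [← hYp]
    obtain ⟨m, rfl⟩ : ∃ m, p = m + 2 := ⟨p - 2, by omega⟩
    rw [Function.iterate_add_apply]
    have h2 : (adE D β i)^[2] (β j) = 0 := by
      change adE D β i (adE D β i (β j)) = 0
      rw [adE_coord D β hdet]
      split_ifs
      · exact Derivation.map_one_eq_zero _
      · exact map_zero _
    rw [h2, iter_zero]
  rw [hYp, h1]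
  rfl

end adapt

section shift

variable {k L : Type u} [Field k] [Field L] [Algebra k L]

/-- The shift of a derivation of the coefficients by `-e`. -/
noncomputable def sD (E : Derivation k L L) (e : ℤ) : Derivation k (LP L) (LP L) :=
  (hm (-e) (1 : L) : LP L) • tlD E 0

lemma sD_hm (E : Derivation k L L) (e d : ℤ) (a : L) : sD E e (hm d a) = hm (d - e) (E a) := by
  change hm (-e) (1 : L) * tlD E 0 (hm d a) = _
  rw [tlD_hm, hm_mul, one_mul]
  congr 1
  push_cast
  ring

lemma sD_iter_hm (E : Derivation k L L) (e d : ℤ) (a : L) (n : ℕ) :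
    (sD E e)^[n] (hm d a) = hm (d - n * e) (E^[n] a) := by
  induction n generalizing d a with
  | zero => simp
  | succ n ih =>
    rw [Function.iterate_succ_apply, sD_hm, ih, Function.iterate_succ_apply]
    congr 1
    push_cast
    ring

lemma lp_ind {P : LP L → Prop} (h0 : P 0) (hadd : ∀ f g, P f → P g → P (f + g))
    (hhm : ∀ (d : ℤ) (a : L), P (hm d a)) (f : LP L) : P f := by
  classical
  rw [eq_sum_hm f]
  have : ∀ s : Finset ℤ, P (∑ d ∈ s, hm d (f.coeff d)) := by
    intro s
    induction s using Finset.induction_on with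
    | empty => rwa [Finset.sum_empty]
    | insert d s hd ih =>
      rw [Finset.sum_insert hd]
      exact hadd _ _ (hhm _ _) ih
  exact this _

lemma sD_iter_zero (E : Derivation k L L) (e : ℤ) (n : ℕ) (h : ∀ x, E^[n] x = 0) (f : LP L) :
    (sD E e)^[n] f = 0 := by
  induction f using lp_ind with
  | h0 => exact iter_zero _ _
  | hadd f g hf hg => rw [iter_add, hf, hg, add_zero]
  | hhm d a => rw [sD_iter_hm, h, hm_zero]

lemma sD_comm (E E' : Derivation k L L) (e e' : ℤ) (h : ∀ x, E (E' x) = E' (E x)) (f : LP L) :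
    sD E e (sD E' e' f) = sD E' e' (sD E e f) := by
  induction f using lp_ind with
  | h0 => simp only [map_zero]
  | hadd f g hf hg => simp only [map_add, hf, hg]
  | hhm d a =>
    rw [sD_hm, sD_hm, sD_hm, sD_hm, h]
    congr 1
    ring

/-- The matrix of the weighted derivatives. -/
noncomputable def mM {r : ℕ} (D : Fin r → Derivation k L L) (l : Fin r → ℕ) (ε : Fin r → ℤ)
    (β : Fin r → L) : Matrix (Fin r) (Fin r) (LP L) :=
  Matrix.of fun i j => hm (ε j + l i) (D i (β j))

/-- The inverse matrix. -/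
noncomputable def mN {r : ℕ} (D : Fin r → Derivation k L L) (l : Fin r → ℕ) (ε : Fin r → ℤ)
    (β : Fin r → L) : Matrix (Fin r) (Fin r) (LP L) :=
  Matrix.of fun i m => hm (-ε i - l m) ((Matrix.of fun i j => D i (β j))⁻¹ i m)

lemma mN_mul {r : ℕ} (D : Fin r → Derivation k L L) (l : Fin r → ℕ) (ε : Fin r → ℤ)
    (β : Fin r → L) (hdet : (Matrix.of fun i j => D i (β j)).det ≠ 0) :
    mN D l ε β * mM D l ε β = 1 := by
  classical
  ext i j
  rw [Matrix.mul_apply]
  have h1 : ∀ m, mN D l ε β i m * mM D l ε β m j =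
      hm (ε j - ε i) ((Matrix.of fun i j => D i (β j))⁻¹ i m * D m (β j)) := by
    intro m
    change hm _ _ * hm _ _ = _
    rw [hm_mul]
    congr 1
    ring
  rw [Finset.sum_congr rfl fun m _ => h1 m, ← hm_sum]
  have h2 : ∑ m, (Matrix.of fun i j => D i (β j))⁻¹ i m * D m (β j) =
      (1 : Matrix (Fin r) (Fin r) L) i j := by
    rw [← Matrix.nonsing_inv_mul _ (isUnit_iff_ne_zero.2 hdet), Matrix.mul_apply]
    rfl
  rw [h2, Matrix.one_apply, Matrix.one_apply]
  split_ifs with h
  · subst h
    rw [sub_self, hm_one]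
  · rw [hm_zero]

lemma sD_eq {r : ℕ} (D : Fin r → Derivation k L L) (l : Fin r → ℕ) (ε : Fin r → ℤ)
    (β : Fin r → L) (i : Fin r) (f : LP L) :
    sD (adE D β i) (ε i) f = ∑ m, mN D l ε β i m * tlD (D m) (l m) f := by
  induction f using lp_ind with
  | h0 => simp only [map_zero, mul_zero, Finset.sum_const_zero]
  | hadd f g hf hg => simp only [map_add, hf, hg, mul_add, Finset.sum_add_distrib]
  | hhm d a =>
    rw [sD_hm, adE_apply]
    have h1 : ∀ m, mN D l ε β i m * tlD (D m) (l m) (hm d a) =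
        hm (d - ε i) ((Matrix.of fun i j => D i (β j))⁻¹ i m * D m a) := by
      intro m
      rw [tlD_hm]
      change hm _ _ * hm _ _ = _
      rw [hm_mul]
      congr 1
      ring
    rw [Finset.sum_congr rfl fun m _ => h1 m, ← hm_sum]

lemma det_mM {r : ℕ} (D : Fin r → Derivation k L L) (l : Fin r → ℕ) (ε : Fin r → ℤ)
    (β : Fin r → L) : (mM D l ε β).det =
      hm (∑ j, (ε j + l j)) (Matrix.of fun i j => D i (β j)).det := by
  classical
  rw [Matrix.det_apply, Matrix.det_apply, hm_sum]
  refine Finset.sum_congr rfl fun σ _ => ?_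
  have h1 : ∏ i, mM D l ε β (σ i) i =
      hm (∑ j, (ε j + l j)) (∏ i, (Matrix.of fun i j => D i (β j)) (σ i) i) := by
    have h2 : ∏ i, mM D l ε β (σ i) i = ∏ i, hm (ε i + l (σ i)) (D (σ i) (β i)) := rfl
    rw [h2, hm_prod]
    congr 1
    rw [Finset.sum_add_distrib, Finset.sum_add_distrib, Equiv.sum_comp σ fun i => (l i : ℤ)]
  rw [h1]
  rcases Int.units_eq_one_or (Equiv.Perm.sign σ) with h | h
  · rw [h, one_smul, one_smul]
  · rw [h, Units.neg_smul, Units.neg_smul, one_smul, one_smul, hm_neg]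

/-- The common kernel of the derivations. -/
noncomputable def kerF {r : ℕ} (D : Fin r → Derivation k L L) (l : Fin r → ℕ) : Subalgebra k (LP L) :=
  ⨅ i, kerAlg (tlD (D i) (l i))

lemma mem_kerF {r : ℕ} {D : Fin r → Derivation k L L} {l : Fin r → ℕ} {f : LP L} :
    f ∈ kerF D l ↔ ∀ i, tlD (D i) (l i) f = 0 := by
  rw [kerF, Algebra.mem_iInf]
  exact Iff.rfl

/-- The constants of the localization at a good element are smooth. -/
theorem smooth_good {p : ℕ} (hp : p.Prime) (hpk : (p : k) = 0) {r : ℕ}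
    (D : Fin r → Derivation k L L) (hcl : ClosedSpan p D) (l : Fin r → ℕ)
    (R : Subalgebra k (LP L)) (hD : ∀ i, ∀ f ∈ R, tlD (D i) (l i) f ∈ R) (e : ℕ) (η : L)
    (he : hm e η ∈ R) (hη : η ≠ 0) (hsm : Algebra.Smooth k (loc R (hm e η) he))
    (ε : Fin r → ℤ) (β : Fin r → L) (hβ : ∀ j, hm (ε j) (β j) ∈ R) (y : LP L) (hy : y ∈ R)
    (hprod : hm e η = (y * hm (∑ j, (ε j + l j)) (Matrix.of fun i j => D i (β j)).det) ^ p) :
    Algebra.Smooth k ↥(loc R (hm e η) he ⊓ kerF D l) := by
  classical
  have hdet : (Matrix.of fun i j => D i (β j)).det ≠ 0 := by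
    intro h
    rw [h, hm_zero, mul_zero, zero_pow hp.ne_zero] at hprod
    exact hm_ne_zero hη hprod
  have hpL : ((p : ℕ) : LP L) = 0 := by
    rw [← map_natCast (algebraMap k (LP L)), hpk, map_zero]
  have hDp : ∀ i (f : LP L), tlD (D i) (l i) (f ^ p) = 0 := by
    intro i f
    rw [Derivation.leibniz_pow, nsmul_eq_mul, hpL, zero_mul]
  have hDh : ∀ i, tlD (D i) (l i) (hm e η) = 0 := by intro i; rw [hprod]; exact hDp _ _
  have hDhn : ∀ i (n : ℕ), tlD (D i) (l i) (hm e η ^ n) = 0 := by
    intro i n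
    rw [Derivation.leibniz_pow, nsmul_eq_mul, hDh, smul_zero, mul_zero]
  let R' := loc R (hm e η) he
  have hstab : ∀ i, ∀ x ∈ R', tlD (D i) (l i) x ∈ R' := by
    rintro i x ⟨n, hn⟩
    refine ⟨n, ?_⟩
    have h1 := hD i _ hn
    rw [Derivation.leibniz, hDhn, smul_zero, add_zero, smul_eq_mul] at h1
    exact h1
  obtain ⟨z, hz⟩ := (isUnit_hm (d := (e : ℤ)) hη).exists_right_inv
  have hzR : z ∈ R' := inv_mem_loc _ _ _ _ hz
  have hM : ∀ i j, mM D l ε β i j ∈ R := by
    intro i j
    have h1 := hD i _ (hβ j)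
    rw [tlD_hm] at h1
    exact h1
  have hprodR : ∀ (s : Finset (Fin r)) (f : Fin r → LP L), (∀ i, f i ∈ R) → ∏ i ∈ s, f i ∈ R :=
    fun s f hf => Subalgebra.prod_mem _ fun i _ => hf i
  have hdetR : ∀ (M : Matrix (Fin r) (Fin r) (LP L)), (∀ i j, M i j ∈ R) → M.det ∈ R := by
    intro M hM
    rw [Matrix.det_apply]
    refine Subalgebra.sum_mem _ fun σ _ => ?_
    have h1 : ∏ i, M (σ i) i ∈ R := hprodR _ _ fun i => hM _ _
    rcases Int.units_eq_one_or (Equiv.Perm.sign σ) with h | h
    · rwa [h, one_smul]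
    · rw [h, Units.neg_smul, one_smul]
      exact Subalgebra.neg_mem _ h1
  have hadj : ∀ i j, (mM D l ε β).adjugate i j ∈ R := by
    intro i j
    rw [Matrix.adjugate_apply]
    refine hdetR _ fun a b => ?_
    rw [Matrix.updateRow_apply]
    split_ifs
    · rw [Pi.single_apply]
      split_ifs
      · exact Subalgebra.one_mem _
      · exact Subalgebra.zero_mem _
    · exact hM _ _
  set Δ := (mM D l ε β).det with hΔ
  have hΔR : Δ ∈ R := hdetR _ hM
  have hprod' : hm e η = (y * Δ) ^ p := by rw [hprod, hΔ, det_mM]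
  let w : LP L := y * (y * Δ) ^ (p - 1) * z
  have hwR : w ∈ R' := R'.mul_mem (le_loc _ _ _ (R.mul_mem hy (R.pow_mem (R.mul_mem hy hΔR) _))) hzR
  have hwΔ : w * Δ = 1 := by
    have h2 : ∀ a : LP L, a ^ p = a * a ^ (p - 1) := fun a => by
      rw [← pow_succ', Nat.sub_add_cancel hp.one_lt.le]
    rw [hprod', h2] at hz
    rw [← hz]
    change y * (y * Δ) ^ (p - 1) * z * Δ = _
    ring
  have hN : ∀ i m, mN D l ε β i m ∈ R' := by
    intro i m
    have h1 : (Δ : LP L) • mN D l ε β = (mM D l ε β).adjugate := by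
      have h2 : mN D l ε β * (mM D l ε β * (mM D l ε β).adjugate) = (mM D l ε β).adjugate := by
        rw [← Matrix.mul_assoc, mN_mul D l ε β hdet, Matrix.one_mul]
      rw [Matrix.mul_adjugate, Matrix.mul_smul, Matrix.mul_one] at h2
      exact h2
    have h3 : mN D l ε β i m = w * (mM D l ε β).adjugate i m := by
      rw [← h1, Matrix.smul_apply, smul_eq_mul, ← mul_assoc, hwΔ, one_mul]
    rw [h3]
    exact R'.mul_mem hwR (le_loc _ _ _ (hadj i m))
  have hsmk := smooth_kers hp hpk R' (fun i => sD (adE D β i) (ε i))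
    (fun i x => sD_iter_zero _ _ _ (fun x => adE_pow hp.two_le D hcl β hdet i x) x)
    (fun i j x => sD_comm _ _ _ _ (fun x => adE_comm D hcl β hdet i j x) x)
    (fun i x hx => by
      rw [sD_eq D l ε β]
      exact Subalgebra.sum_mem _ fun m _ => R'.mul_mem (hN i m) (hstab m x hx))
    (fun j => hm (ε j) (β j)) (fun j => le_loc _ _ _ (hβ j))
    (fun i j => by
      rw [sD_hm, adE_coord D β hdet]
      split_ifs with h
      · subst h
        rw [sub_self, hm_one]
      · exact hm_zero _) hsm r le_rfl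
  have heq : kers R' (fun i => sD (adE D β i) (ε i)) r = R' ⊓ kerF D l := by
    ext f
    rw [mem_kers, Algebra.mem_inf, mem_kerF]
    refine and_congr_right fun _ => ?_
    constructor
    · intro h i
      have h1 : ∀ m, ∑ j, mN D l ε β m j * tlD (D j) (l j) f = 0 := by
        intro m
        rw [← sD_eq D l ε β]
        exact h m m.2
      have h2 : Matrix.mulVec (mN D l ε β) (fun j => tlD (D j) (l j) f) = 0 := by
        funext m
        exact h1 m
      have h3 : mM D l ε β * mN D l ε β = 1 :=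
        mul_eq_one_comm.1 (mN_mul D l ε β hdet)
      have h4 := congrArg (fun v => Matrix.mulVec (mM D l ε β) v) h2
      change Matrix.mulVec (mM D l ε β) (Matrix.mulVec _ _) = Matrix.mulVec _ 0 at h4
      rw [Matrix.mulVec_mulVec, h3, Matrix.one_mulVec, Matrix.mulVec_zero] at h4
      exact congrFun h4 i
    · intro h i _
      rw [sD_eq D l ε β]
      exact Finset.sum_eq_zero fun m _ => by rw [h m, mul_zero]
  rw [← heq]
  exact hsmk

end shift

end Pool.Agent.Helper44x.FR
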