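import Pool.Agent.Helper44x.FR.Shift

/-! Foliations of higher rank: the ring of constants. -/

set_option autoImplicit false
set_option linter.style.haveILetI false
set_option linter.unusedSectionVars false

open Pool.Agent.H920R2 Pool.Agent.H519R3.RS

universe u v

namespace Pool.Agent.Helper44x.FR

section lead

variable {k C L : Type u} [Field k] [CommRing C] [Algebra k C] [Field L] [Algebra k L]
  (g : C →ₐ[k] L) {F : ℕ → Ideal C} (hF : IsFilt F)

/-- The elements which are, up to higher order, combinations of the elements of a family of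
elements with weights. -/
def leadG (F : ℕ → Ideal C) (𝒢 : ℕ → C → Prop) (m : ℕ) : Ideal C :=
  F (m + 1) ⊔ Ideal.span {y | ∃ (n : ℕ) (x c : C), 𝒢 n x ∧ c ∈ F (m - n) ∧ y = c * x}

/-- The zeros of the leading forms of a family of elements. -/
theorem lead_rad_gen (𝒢 : ℕ → C → Prop) (h𝒢 : ∀ n x, 𝒢 n x → x ∈ F n) (l0 : ℕ)
    (hfix : ∀ P : Ideal C, P.IsPrime → (∀ x, 𝒢 l0 x → x ∈ P) → F 1 ≤ P)
    (hlead : ∀ d, 1 ≤ d → ∀ a ∈ F d, ∃ N : ℕ, a ^ N ∈ leadG F 𝒢 (N * d))
    (Q : Ideal (rG g hF)) (hQ : Q.IsPrime)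
    (hDQ : ∀ (n : ℕ) (x : C), 𝒢 n x → ∀ h : hm (n : ℤ) (g x) ∈ rG g hF,
      (⟨hm (n : ℤ) (g x), h⟩ : rG g hF) ∈ Q)
    (d : ℕ) (a : L) (h : hm d a ∈ rG g hF) (hd : 0 < d) : (⟨hm d a, h⟩ : rG g hF) ∈ Q := by
  classical
  let R := rG g hF
  have hmR : ∀ (n : ℕ) (x : C), x ∈ F n → hm (n : ℤ) (g x) ∈ R := fun n x hx =>
    hm_mem_rG g hF (by rwa [Int.toNat_natCast])
  obtain ⟨b, hb, hba⟩ := of_hm_mem_rG g hF h
  rw [Int.toNat_natCast] at hb
  subst hba
  let s : R := ⟨hm (-1) 1, s_rG g hF⟩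
  by_cases hsQ : s ∈ Q
  · obtain ⟨N, hN⟩ := hlead d hd b hb
    have key : ∀ z ∈ leadG F 𝒢 (N * d),
        ∃ hz : hm ((N * d : ℕ) : ℤ) (g z) ∈ R, (⟨hm ((N * d : ℕ) : ℤ) (g z), hz⟩ : R) ∈ Q := by
      intro z hz
      obtain ⟨z1, hz1, z2, hz2, rfl⟩ := Submodule.mem_sup.1 hz
      have h1 : ∃ hz : hm ((N * d : ℕ) : ℤ) (g z1) ∈ R,
          (⟨hm ((N * d : ℕ) : ℤ) (g z1), hz⟩ : R) ∈ Q := by
        have h2 : hm ((N * d : ℕ) : ℤ) (g z1) =
            hm (-1) 1 * hm ((N * d + 1 : ℕ) : ℤ) (g z1) := by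
          rw [hm_mul, one_mul]
          push_cast
          congr 1
          ring
        have h3 : hm ((N * d + 1 : ℕ) : ℤ) (g z1) ∈ R := hmR _ _ hz1
        have h4 : hm ((N * d : ℕ) : ℤ) (g z1) ∈ R := by
          rw [h2]; exact R.mul_mem (s_rG g hF) h3
        refine ⟨h4, ?_⟩
        have h5 : (⟨hm ((N * d : ℕ) : ℤ) (g z1), h4⟩ : R) = s * ⟨_, h3⟩ := Subtype.ext h2
        rw [h5]
        exact Q.mul_mem_right _ hsQ
      have h2 : ∃ hz : hm ((N * d : ℕ) : ℤ) (g z2) ∈ R,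
          (⟨hm ((N * d : ℕ) : ℤ) (g z2), hz⟩ : R) ∈ Q := by
        clear hz h1
        induction hz2 using Submodule.span_induction with
        | mem z hz =>
          obtain ⟨n, x, c, hx, hc, rfl⟩ := hz
          have h2 : hm ((N * d : ℕ) : ℤ) (g (c * x)) =
              hm (((N * d : ℕ) : ℤ) - n) (g c) * hm (n : ℤ) (g x) := by
            rw [hm_mul, map_mul]
            congr 1
            ring
          have h3 : hm (((N * d : ℕ) : ℤ) - n) (g c) ∈ R := by
            refine hm_mem_rG g hF ?_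
            have e1 : (((N * d : ℕ) : ℤ) - n).toNat = N * d - n := by omega
            rw [e1]
            exact hc
          have h4 : hm (n : ℤ) (g x) ∈ R := hmR n x (h𝒢 n x hx)
          refine ⟨by rw [h2]; exact R.mul_mem h3 h4, ?_⟩
          have h5 : (⟨hm ((N * d : ℕ) : ℤ) (g (c * x)), by
              rw [h2]; exact R.mul_mem h3 h4⟩ : R) = ⟨_, h3⟩ * ⟨_, h4⟩ := Subtype.ext h2
          rw [h5]
          exact Q.mul_mem_left _ (hDQ n x hx h4)
        | zero =>
          have h2 : hm ((N * d : ℕ) : ℤ) (g 0) = 0 := by rw [map_zero, hm_zero]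
          refine ⟨by rw [h2]; exact R.zero_mem, ?_⟩
          have h3 : (⟨hm ((N * d : ℕ) : ℤ) (g 0), by rw [h2]; exact R.zero_mem⟩ : R) = 0 :=
            Subtype.ext h2
          rw [h3]
          exact Q.zero_mem
        | add y z _ _ hy hz =>
          obtain ⟨hy1, hy2⟩ := hy
          obtain ⟨hz1, hz2⟩ := hz
          have h2 : hm ((N * d : ℕ) : ℤ) (g (y + z)) =
              hm ((N * d : ℕ) : ℤ) (g y) + hm ((N * d : ℕ) : ℤ) (g z) := by
            rw [map_add, hm_add]
          refine ⟨by rw [h2]; exact R.add_mem hy1 hz1, ?_⟩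
          have h3 : (⟨hm ((N * d : ℕ) : ℤ) (g (y + z)), by
              rw [h2]; exact R.add_mem hy1 hz1⟩ : R) = ⟨_, hy1⟩ + ⟨_, hz1⟩ := Subtype.ext h2
          rw [h3]
          exact Q.add_mem hy2 hz2
        | smul r z _ hz =>
          obtain ⟨hz1, hz2⟩ := hz
          have h2 : hm ((N * d : ℕ) : ℤ) (g (r • z)) =
              hm 0 (g r) * hm ((N * d : ℕ) : ℤ) (g z) := by
            rw [smul_eq_mul, map_mul, hm_mul, zero_add]
          refine ⟨by rw [h2]; exact R.mul_mem (b_rG g hF r) hz1, ?_⟩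
          have h3 : (⟨hm ((N * d : ℕ) : ℤ) (g (r • z)), by
              rw [h2]; exact R.mul_mem (b_rG g hF r) hz1⟩ : R) =
              ⟨_, b_rG g hF r⟩ * ⟨_, hz1⟩ := Subtype.ext h2
          rw [h3]
          exact Q.mul_mem_left _ hz2
      obtain ⟨a1, a2⟩ := h1
      obtain ⟨b1, b2⟩ := h2
      have h3 : hm ((N * d : ℕ) : ℤ) (g (z1 + z2)) =
          hm ((N * d : ℕ) : ℤ) (g z1) + hm ((N * d : ℕ) : ℤ) (g z2) := by
        rw [map_add, hm_add]
      refine ⟨by rw [h3]; exact R.add_mem a1 b1, ?_⟩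
      have h4 : (⟨hm ((N * d : ℕ) : ℤ) (g (z1 + z2)), by
          rw [h3]; exact R.add_mem a1 b1⟩ : R) = ⟨_, a1⟩ + ⟨_, b1⟩ := Subtype.ext h3
      rw [h4]
      exact Q.add_mem a2 b2
    obtain ⟨h1, h2⟩ := key _ hN
    have h3 : (⟨hm d (g b), h⟩ : R) ^ N = ⟨_, h1⟩ := by
      apply Subtype.ext
      change hm (d : ℤ) (g b) ^ N = hm ((N * d : ℕ) : ℤ) (g (b ^ N))
      rw [hm_pow, map_pow]
      push_cast
      rfl
    rw [← h3] at h2
    exact hQ.mem_of_pow_mem _ h2
  · -- the general fibre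
    have hsn : ∀ n : ℕ, s ^ n ∉ Q := fun n hn => hsQ (hQ.mem_of_pow_mem n hn)
    let ib : C →+* R :=
      { toFun := fun b => ⟨hm 0 (g b), b_rG g hF b⟩
        map_one' := Subtype.ext (by change hm 0 (g 1) = 1; rw [map_one, hm_one])
        map_mul' := fun a b => Subtype.ext (by
          change hm 0 (g (a * b)) = hm 0 (g a) * hm 0 (g b)
          rw [map_mul, hm_mul, add_zero])
        map_zero' := Subtype.ext (by change hm 0 (g 0) = 0; rw [map_zero, hm_zero])
        map_add' := fun a b => Subtype.ext (by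
          change hm 0 (g (a + b)) = hm 0 (g a) + hm 0 (g b)
          rw [map_add, hm_add]) }
    have hib : ∀ (n : ℕ) (x : C) (hx : hm (n : ℤ) (g x) ∈ R), ib x = s ^ n * ⟨_, hx⟩ := by
      intro n x hx
      apply Subtype.ext
      change hm 0 (g x) = hm (-1) 1 ^ n * hm (n : ℤ) (g x)
      rw [hm_pow, hm_mul, one_pow, one_mul]
      congr 1
      ring
    have h1 : F 1 ≤ Q.comap ib := by
      refine hfix _ (hQ.comap _) fun x hx => ?_
      rw [Ideal.mem_comap]
      have h4 : hm (l0 : ℤ) (g x) ∈ R := hmR l0 x (h𝒢 l0 x hx)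
      rw [hib l0 x h4]
      exact Q.mul_mem_left _ (hDQ l0 x hx h4)
    have h2 : b ∈ Q.comap ib := h1 (hF.anti 1 d hd hb)
    rw [Ideal.mem_comap, hib d b h] at h2
    exact (hQ.mem_or_mem h2).resolve_left (hsn d)

end lead

section step

variable {k C : Type u} [Field k] [CommRing C] [IsDomain C] [Algebra k C]

/-- The family of derivations spans a foliation: on the fraction field, the span of the
derivations is closed under brackets and `p`-th powers. -/
def IsFoliation (p : ℕ) {r : ℕ} (D : Fin r → Derivation k C C) : Prop :=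
  ∃ D' : Fin r → Derivation k (FractionRing C) (FractionRing C),
    (∀ i b, D' i (algebraMap C (FractionRing C) b) = algebraMap C (FractionRing C) (D i b)) ∧
    ClosedSpan p D'

/-- The determinants of the derivatives. -/
def detD {r : ℕ} (D : Fin r → C → C) (F : ℕ → Ideal C) (l : Fin r → ℕ) (n : ℕ) (x : C) : Prop :=
  ∃ (e : Fin r → ℕ) (b : Fin r → C), (∀ j, b j ∈ F (e j)) ∧ n = ∑ j, (e j + l j) ∧
    x = (Matrix.of fun i j => D i (b j)).det

lemma det_mem {F : ℕ → Ideal C} (hF : IsFilt F) {r : ℕ} (l e : Fin r → ℕ)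
    (M : Matrix (Fin r) (Fin r) C) (hM : ∀ i j, M i j ∈ F (e j + l i)) :
    M.det ∈ F (∑ j, (e j + l j)) := by
  classical
  have hprod : ∀ (s : Finset (Fin r)) (f : Fin r → C) (u : Fin r → ℕ),
      (∀ i, f i ∈ F (u i)) → ∏ i ∈ s, f i ∈ F (∑ i ∈ s, u i) := by
    intro s f u hfu
    induction s using Finset.induction_on with
    | empty =>
      rw [Finset.prod_empty, Finset.sum_empty, hF.zero]
      trivial
    | insert x s hx ih =>
      rw [Finset.prod_insert hx, Finset.sum_insert hx]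
      exact hF.mul _ _ (Ideal.mul_mem_mul (hfu x) ih)
  rw [Matrix.det_apply]
  refine Ideal.sum_mem _ fun ρ _ => ?_
  have h3 : ∏ i, M (ρ i) i ∈ F (∑ i, (e i + l (ρ i))) := hprod _ _ _ fun i => hM (ρ i) i
  have h4 : ∑ i, (e i + l (ρ i)) = ∑ j : Fin r, (e j + l j) := by
    rw [Finset.sum_add_distrib, Finset.sum_add_distrib, Equiv.sum_comp ρ fun i : Fin r => l i]
  rw [h4] at h3
  rcases Int.units_eq_one_or (Equiv.Perm.sign ρ) with h | h
  · rwa [h, one_smul]
  · rw [h, Units.neg_smul, one_smul]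
    exact Ideal.neg_mem_iff _ |>.2 h3

variable {C' : Type u} [CommRing C'] [Algebra k C']

/-- **The step for foliations.** -/
theorem good_kers {p : ℕ} (hp : p.Prime) (hpk : (p : k) = 0) {r : ℕ}
    (D : Fin r → Derivation k C C) (hfol : IsFoliation p D)
    {F : ℕ → Ideal C} (hF : IsFilt F) (hG : Good k hF) {l : Fin r → ℕ}
    (hdiv : ∀ i d, ∀ a ∈ F d, D i a ∈ F (d + l i))
    (hfix : ∀ P : Ideal C, P.IsPrime →
      (∀ b : Fin r → C, (Matrix.of fun i j => D i (b j)).det ∈ P) → F 1 ≤ P)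
    (hlead : ∀ d, 1 ≤ d → ∀ a ∈ F d, ∃ N : ℕ,
      a ^ N ∈ leadG F (detD (fun i => D i) F l) (N * d))
    (j : C' →ₐ[k] C) (hj : Function.Injective j) (hjr : ∀ c, (∀ i, D i c = 0) ↔ ∃ c', j c' = c)
    {F' : ℕ → Ideal C'} (hF' : IsFilt F') (hFF' : ∀ d c', c' ∈ F' d ↔ j c' ∈ F d) :
    Good k hF' := by
  classical
  let L := FractionRing C
  let g : C →ₐ[k] L := IsScalarTower.toAlgHom k C L
  have hinj : Function.Injective g := IsFractionRing.injective C L
  obtain ⟨E', hE', hcl⟩ := hfol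
  have hτ : ∀ i b, E' i (g b) = g (D i b) := hE'
  have hGE := (good_iff g hF hinj).1 hG
  let R := rG g hF
  have hDgen : ∀ i (d : ℤ) (b : C), tlD (E' i) (l i) (hm d (g b)) = hm (d + l i) (g (D i b)) := by
    intro i d b
    rw [tlD_hm, hτ]
  have hDF : ∀ i (d : ℤ) (b : C), b ∈ F d.toNat → D i b ∈ F (d + l i).toNat := by
    intro i d b hb
    exact hF.anti _ _ (by omega) (hdiv i _ b hb)
  have hD : ∀ i, ∀ f ∈ R, tlD (E' i) (l i) f ∈ R := by
    intro i f hf
    have h1 : tlD (E' i) (l i) f =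
        ∑ d ∈ f.coeff.support, tlD (E' i) (l i) (hm d (f.coeff d)) := by
      rw [← map_sum, ← eq_sum_hm f]
    rw [h1]
    refine Subalgebra.sum_mem _ fun d _ => ?_
    obtain ⟨b, hb, hb'⟩ := hf d
    rw [← hb', hDgen]
    exact hm_mem_rG g hF (hDF i d b hb)
  have hpL : ((p : ℕ) : LP L) = 0 := by
    rw [← map_natCast (algebraMap k (LP L)), hpk, map_zero]
  have hDp : ∀ i (f : LP L), tlD (E' i) (l i) (f ^ p) = 0 := by
    intro i f
    rw [Derivation.leibniz_pow, nsmul_eq_mul, hpL, zero_mul]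
  let F0 := kerF E' l
  have hFp : ∀ f : LP L, f ^ p ∈ F0 := fun f => mem_kerF.2 fun i => hDp i f
  have h𝒢 : ∀ n x, detD (fun i => D i) F l n x → x ∈ F n := by
    rintro n x ⟨e, b, hb, rfl, rfl⟩
    exact det_mem hF l e _ fun i j => hdiv i _ _ (hb j)
  have hfam : Fam R F0 := by
    intro Q hQ hQS d a hda hd
    by_contra hnQ
    have ha0 : a ≠ 0 := by
      intro h
      apply hnQ
      have e1 : (⟨hm d a, hda⟩ : R) = 0 := by
        apply Subtype.ext
        change hm (d : ℤ) a = 0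
        rw [h, hm_zero]
      rw [e1]
      exact Q.zero_mem
    apply hnQ
    refine lead_rad_gen g hF (detD (fun i => D i) F l) h𝒢 (∑ j, (0 + l j)) ?_ hlead Q hQ ?_
      d a hda hd
    · intro P hP h
      refine hfix P hP fun b => h _ ⟨fun _ => 0, b, fun j => ?_, rfl, rfl⟩
      rw [hF.zero]
      trivial
    · rintro n x ⟨e, b, hb, rfl, rfl⟩ hxR
      set x := (Matrix.of fun i j => D i (b j)).det with hx
      set n := ∑ j, (e j + l j) with hn
      by_cases hb0 : g x = 0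
      · have e1 : (⟨hm (n : ℤ) (g x), hxR⟩ : R) = 0 := by
          apply Subtype.ext
          change hm (n : ℤ) (g x) = 0
          rw [hb0, hm_zero]
        change (⟨hm (n : ℤ) (g x), hxR⟩ : R) ∈ Q
        rw [e1]
        exact Q.zero_mem
      · have hprod : (hm (d : ℤ) a * hm (n : ℤ) (g x)) ^ p =
            hm ((p * (d + n) : ℕ) : ℤ) ((a * g x) ^ p) := by
          rw [hm_mul, hm_pow]
          congr 1
        have hR1 : (hm (d : ℤ) a * hm (n : ℤ) (g x)) ^ p ∈ R :=
          R.pow_mem (R.mul_mem hda hxR) p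
        have hR2 : hm ((p * (d + n) : ℕ) : ℤ) ((a * g x) ^ p) ∈ R := by rw [← hprod]; exact hR1
        have hη : (a * g x) ^ p ≠ 0 := pow_ne_zero _ (mul_ne_zero ha0 hb0)
        have hpos : 0 < p * (d + n) := Nat.mul_pos hp.pos (by omega)
        have hdet : hm (n : ℤ) (g x) = hm (∑ j, ((e j : ℤ) + l j))
            (Matrix.of fun i j => E' i (g (b j))).det := by
          have e1 : (n : ℤ) = ∑ j, ((e j : ℤ) + l j) := by
            rw [hn]
            push_cast
            rfl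
          have e2 : g x = (Matrix.of fun i j => E' i (g (b j))).det := by
            rw [hx, AlgHom.map_det]
            congr 1
            ext i j
            exact (hτ i (b j)).symm
          rw [e1, e2]
        have hmem : (⟨hm ((p * (d + n) : ℕ) : ℤ) ((a * g x) ^ p), hR2⟩ : R) ∈ Q := by
          refine hQS _ _ hR2 hpos hη ?_ ?_
          · rw [← hprod]
            exact hFp _
          · exact smooth_good hp hpk E' hcl l R hD _ _ hR2 hη (hGE.sm _ _ hR2 hpos hη)
              (fun j => (e j : ℤ)) (fun j => g (b j))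
              (fun j => hm_mem_rG g hF (by rw [Int.toNat_natCast]; exact hb j)) (hm (d : ℤ) a) hda
              (by rw [← hprod, hdet])
        have h4 : ((⟨hm d a, hda⟩ : R) * ⟨hm (n : ℤ) (g x), hxR⟩) ^ p ∈ Q := by
          have e2 : ((⟨hm d a, hda⟩ : R) * ⟨hm (n : ℤ) (g x), hxR⟩) ^ p =
              ⟨hm ((p * (d + n) : ℕ) : ℤ) ((a * g x) ^ p), hR2⟩ := Subtype.ext hprod
          rw [e2]; exact hmem
        have h5 := hQ.mem_of_pow_mem _ h4
        rcases hQ.mem_or_mem h5 with h6 | h6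
        · exact absurd h6 hnQ
        · exact h6
  have hint : ∀ f ∈ R, IsIntegral ↥(R ⊓ F0) f := by
    intro f hf
    have hfp : f ^ p ∈ R ⊓ F0 := ⟨R.pow_mem hf p, hFp f⟩
    refine ⟨Polynomial.X ^ p - Polynomial.C ⟨f ^ p, hfp⟩,
      Polynomial.monic_X_pow_sub_C _ hp.ne_zero, ?_⟩
    rw [Polynomial.eval₂_sub, Polynomial.eval₂_pow, Polynomial.eval₂_X, Polynomial.eval₂_C]
    exact sub_self _
  have hinj' : Function.Injective (g.comp j) := hinj.comp hj
  have heq : rG (g.comp j) hF' = rG g hF ⊓ F0 := by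
    apply le_antisymm
    · intro f hf
      have h1 : f ∈ rG g hF := by
        intro d
        obtain ⟨b, hb, hb'⟩ := hf d
        exact ⟨j b, (hFF' _ _).1 hb, hb'⟩
      refine ⟨h1, ?_⟩
      refine mem_kerF.2 fun i => ?_
      rw [← mem_kerAlg, eq_sum_hm f]
      refine Subalgebra.sum_mem _ fun d _ => ?_
      obtain ⟨b, hb, hb'⟩ := hf d
      rw [mem_ker_hm, ← hb']
      change E' i (g (j b)) = 0
      rw [hτ, (hjr (j b)).2 ⟨b, rfl⟩ i, map_zero]
    · rintro f ⟨hf, hf0⟩ d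
      obtain ⟨b, hb, hb'⟩ := hf d
      have h1 : ∀ i, D i b = 0 := by
        intro i
        have h2 := gr_kerAlg (E' i) (l i) f (mem_kerF.1 hf0 i) d
        rw [mem_ker_hm, ← hb', hτ, map_eq_zero_iff g hinj] at h2
        exact h2
      rw [hjr] at h1
      obtain ⟨c', hc'⟩ := h1
      refine ⟨c', (hFF' _ _).2 (by rw [hc']; exact hb), ?_⟩
      change g (j c') = _
      rw [hc', hb']
  exact (good_iff (g.comp j) hF' hinj').2 (goodE_inf g hF hGE (g.comp j) hF' F0 heq hfam hint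
    fun d a h => mem_kerF.2 fun i => kerAlg_inv (E' i) (mem_kerF.1 h i))

end step

end Pool.Agent.Helper44x.FR
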